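import Pool.Agent.Helper62.EC.Line
import Pool.Graph.R_pool_sql_team_seeded_63374d34.N882.UE.Opn2
import Pool.Graph.R_pool_sql_team_seeded_63374d34.N882.UE.Bil

/-!
# MP_a9d3bd_ag: the conjecture BP(n) and Artin–Schreier covers of affine spaces

`T : Motivic k` are data of motivic homology `H X i n = H_i^c(X, ℚ(n))` and of motivic cohomology
`C X i n = H^i_c(X, ℚ(n))` with compact supports of the schemes `X` over the finite field `k` of
characteristic `p`, with the pairing `H X i n × C X i n → ℚ`. `Perfect T X n`: the pairing is perfect for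
all `i`. `IsMotivic T` and `Additive T` list the known properties which are used. `FT True X`: `X` is
separated and of finite type over `k`.

`asS p g` is the Artin–Schreier cover `t ^ p - t = g` of the affine space, for a polynomial `g`;
`tri t = ∑ t_ijl x_i y_j z_l`, and `sparse k E` is the sum of the `x_i y_j z_l` with `(i, j) ∈ E l`.
-/

set_option autoImplicit false

open CategoryTheory AlgebraicGeometry Pool.Agent.Y116.UV Pool.Agent.N882.UE Pool.Agent.Q282.UK
  Pool.Agent.Q282.UZ Pool.Agent.Helper62.EC

namespace Pool.Agent.Results.MP_a9d3bd_ag.ArtinSchreierCovers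

/-- `BP(n)` over `k`: the pairings `H^i(X, ℚ(n)) × H^{2d-i}(X, ℚ(d-n)) → ℚ` are perfect for all smooth
proper schemes `X` of pure dimension `d` over `k` and all `i` (for these schemes `H^{2d-i}(X, ℚ(d-n))` is
`H_i^c(X, ℚ(n))`, and `H^i(X, ℚ(n))` is `H^i_c(X, ℚ(n))`). -/
def BP {k : Type} [Field k] (T : Motivic k) (n : ℤ) : Prop :=
  ∀ (d : ℕ) (X : Sch k), SmoothOfRelativeDimension d X.hom → IsProper X.hom → Perfect T X n

/-- The pairings with twist `n` are perfect for all separated schemes of finite type of dimension at
most `d`. -/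
def UpTo {k : Type} [Field k] (T : Motivic k) (d : ℕ) (n : ℤ) : Prop :=
  ∀ X : Sch k, FT True X → topologicalKrullDim X.left ≤ d → Perfect T X n

/-- The motive with compact supports of `X` is a direct factor of that of the disjoint union of `X`
and `Y` (for affine schemes). -/
def Additive {k : Type} [Field k] (T : Motivic k) : Prop :=
  ∀ (A B : Type) [CommRing A] [Algebra k A] [Algebra.FiniteType k A] [CommRing B] [Algebra k B]
    [Algebra.FiniteType k B], Factor T (aff k A) (aff k (A × B)) 0 0

/-- **Theorem.** Let `T` be motivic homology and cohomology with compact supports of the schemes over the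
finite field `k` of characteristic `p`. It is known that the pairings are perfect in dimension at most one
(`curves`), and that they are perfect for all separated schemes of finite type if they are perfect for the
smooth projective ones (`reduction`).
(1) For every polynomial `f` in `x_1, …, x_m`: the pairings with twist `n + 1` of the Artin–Schreier cover
`t ^ p - t = x_0 f(x_1, …, x_m)` of the affine space are perfect if and only if the pairings with twist `n`
of the hypersurface `f = 0` are.
(2) For every `n` and `d`: the pairings with twist `n` are perfect for all separated schemes of dimension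
at most `d` if and only if the pairings with twist `n + 1` are perfect for the Artin–Schreier covers
`t ^ p - t = x_0 f(x_1, …, x_(d+1))`.
(3) For every `n` the following are equivalent: `BP(n)` over `k`; the pairings with twist `n + 1` are
perfect for the Artin–Schreier covers `t ^ p - t = x_0 f(x_1, …, x_m)`; the pairings with twist `n + c` are
perfect for the Artin–Schreier covers `t ^ p - t = ∑ t_ijl x_i y_j z_l` defined by trilinear forms, `c` the
number of the variables `z_l`.
(4) `BP(n)` is true over `k` for all `n`, if and only if the pairings are perfect, for all twists, for all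
Artin–Schreier covers `t ^ p - t = g` of affine spaces, if and only if they are perfect for those with a
trilinear form `g`.
(5) For every `d` the pairings are perfect, for all twists, for all separated schemes of dimension at most
`d` if and only if they are perfect for the Artin–Schreier covers `t ^ p - t = g` with a trilinear form `g`
with at most `d + 2` variables in the third block.
(6) They are perfect, for all twists, for the Artin–Schreier covers `t ^ p - t = g` with
`g = x_0 f(x_1, x_2)` and with a trilinear form `g` with at most three variables in the third block.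
(7) If `k` is a prime field, `BP(n)` is true over `k` if and only if the pairings with twist `n + c` are
perfect for the Artin–Schreier covers `t ^ p - t = ∑ x_i y_j z_l`, with sums of monomials such that every
one of the `c` variables `z_l` is in at most three of them. -/
theorem result {k : Type} [Field k] [Finite k] (p : ℕ) [Fact p.Prime] [CharP k p] (T : Motivic k)
    (hT : IsMotivic T) (additive : Additive T)
    (curves : ∀ X : Sch k, FT True X → topologicalKrullDim X.left ≤ 1 → ∀ n, Perfect T X n)
    (reduction : ∀ n, BP T n → ∀ X : Sch k, FT True X → Perfect T X n) :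
    (∀ (m : ℕ) (f : MvPolynomial (Fin m) k) (n : ℤ),
      Perfect T (asS p (MvPolynomial.X 0 * MvPolynomial.rename Fin.succ f)) (n + 1) ↔
        Perfect T (aff k (MvPolynomial (Fin m) k ⧸ Ideal.span {f})) n) ∧
    (∀ (n : ℤ) (d : ℕ), UpTo T d n ↔ ∀ f : MvPolynomial (Fin (d + 1)) k,
      Perfect T (asS p (MvPolynomial.X 0 * MvPolynomial.rename Fin.succ f)) (n + 1)) ∧
    (∀ n : ℤ, [BP T n,
      (∀ (m : ℕ) (f : MvPolynomial (Fin m) k),
        Perfect T (asS p (MvPolynomial.X 0 * MvPolynomial.rename Fin.succ f)) (n + 1)),
      (∀ (a b c : ℕ) (t : Fin a → Fin b → Fin c → k),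
        Perfect T (asS p (tri t)) (n + c))].TFAE) ∧
    ([(∀ n, BP T n),
      (∀ (m : ℕ) (g : MvPolynomial (Fin m) k) (n : ℤ), Perfect T (asS p g) n),
      (∀ (a b c : ℕ) (t : Fin a → Fin b → Fin c → k) (n : ℤ),
        Perfect T (asS p (tri t)) n)].TFAE) ∧
    (∀ d : ℕ, (∀ n, UpTo T d n) ↔
      ∀ (a b c : ℕ) (t : Fin a → Fin b → Fin c → k), c ≤ d + 2 →
        ∀ n, Perfect T (asS p (tri t)) n) ∧
    ((∀ (f : MvPolynomial (Fin 2) k) (n : ℤ),
        Perfect T (asS p (MvPolynomial.X 0 * MvPolynomial.rename Fin.succ f)) n) ∧
      ∀ (a b c : ℕ) (t : Fin a → Fin b → Fin c → k), c ≤ 3 →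
        ∀ n, Perfect T (asS p (tri t)) n) ∧
    ((Nat.card k).Prime → ∀ n, (BP T n ↔
      ∀ (a b c : ℕ) (E : Fin c → Finset (Fin a × Fin b)), (∀ l, (E l).card ≤ 3) →
        Perfect T (asS p (sparse k E)) (n + c))) := by
  have hp : p ≠ 0 := (Fact.out : p.Prime).ne_zero
  have h1 : ∀ n, Perfect T (aff k k) n := by
    refine curves _ (ft_aff True) ?_
    rw [Pool.Agent.Z125.UN.topDim_aff, ringKrullDim_eq_zero_of_field]
    exact zero_le_one
  have hB := bnd_perfect hT h1
  have hA := cls_all hT
  have hF := fam_perfect hT additive
  have hFA := fam_all hT additive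
  have hBP : ∀ n, (BP T n ↔ ∀ X : Sch k, FT True X → Perfect T X n) := by
    intro n
    refine ⟨reduction n, fun h d X _ hX => h X ⟨?_, ?_, fun _ => ?_⟩⟩
    · infer_instance
    · infer_instance
    · infer_instance
  have hmv : ∀ (m : ℕ) (n : ℤ), Perfect T (aff k (MvPolynomial (Fin m) k)) n := p_space hF h1
  -- the key equivalence
  have key : ∀ (m : ℕ) (f : MvPolynomial (Fin m) k) (n : ℤ),
      Perfect T (asS p (MvPolynomial.X 0 * MvPolynomial.rename Fin.succ f)) (n + 1) ↔
        Perfect T (aff k (MvPolynomial (Fin m) k ⧸ Ideal.span {f})) n := by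
    intro m f n
    have hc := cls_perfect hT (n + 1)
    have h2 : MvPolynomial.finSuccEquiv k m
        (MvPolynomial.X 0 * MvPolynomial.rename Fin.succ f) = yf f := by
      rw [map_mul, MvPolynomial.finSuccEquiv_X_zero]
      have h3 : ((MvPolynomial.finSuccEquiv k m).toAlgHom.comp
          (MvPolynomial.rename (R := k) (Fin.succ : Fin m → Fin (m + 1)))) =
          IsScalarTower.toAlgHom k (MvPolynomial (Fin m) k)
            (Polynomial (MvPolynomial (Fin m) k)) := by
        apply MvPolynomial.algHom_ext
        intro i
        change MvPolynomial.finSuccEquiv k m (MvPolynomial.rename Fin.succ (MvPolynomial.X i)) =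
          Polynomial.C (MvPolynomial.X i)
        rw [MvPolynomial.rename_X, MvPolynomial.finSuccEquiv_X_succ]
      have h4 := DFunLike.congr_fun h3 f
      change MvPolynomial.finSuccEquiv k m (MvPolynomial.rename Fin.succ f) = Polynomial.C f at h4
      rw [h4]
    have h5 : Perfect T (asS p (MvPolynomial.X 0 * MvPolynomial.rename Fin.succ f)) (n + 1) ↔
        Perfect T (aff k (AS p (yf f))) (n + 1) :=
      as_e p hc (MvPolynomial.finSuccEquiv k m) h2
    have h6 : Perfect T (aff k (Polynomial (MvPolynomial (Fin m) k))) (n + 1) :=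
      (perfect_line hT _ n).2 (hmv m n)
    rw [h5, as_iff p hc f (hF.add (n + 1)) h6, perfect_line hT]
  -- hypersurfaces which are covers
  have hcov : ∀ (d : ℕ) (n : ℤ) (F : Polynomial (MvPolynomial (Fin d) k)),
      Perfect T (aff k (MvPolynomial (Fin (d + 1)) k ⧸
        Ideal.span {(MvPolynomial.finSuccEquiv k d).symm F})) n → Perfect T (covS F) n := by
    intro d n F h
    refine iso_alg (cls_perfect hT n) ?_ h
    refine Ideal.quotientEquivAlg _ _ (MvPolynomial.finSuccEquiv k d) ?_
    rw [Ideal.map_span, Set.image_singleton]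
    change Ideal.span {F} = Ideal.span {MvPolynomial.finSuccEquiv k d
      ((MvPolynomial.finSuccEquiv k d).symm F)}
    rw [AlgEquiv.apply_symm_apply]
  have two : ∀ (n : ℤ) (d : ℕ), UpTo T d n ↔ ∀ f : MvPolynomial (Fin (d + 1)) k,
      Perfect T (asS p (MvPolynomial.X 0 * MvPolynomial.rename Fin.succ f)) (n + 1) := by
    intro n d
    constructor
    · intro h f
      rw [key]
      by_cases hf : f = 0
      · subst hf
        have h3 : Ideal.span {(0 : MvPolynomial (Fin (d + 1)) k)} = ⊥ :=
          Ideal.span_singleton_eq_bot.2 rfl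
        rw [h3]
        exact iso_alg (cls_perfect hT n) (AlgEquiv.quotientBot k _).symm (hmv (d + 1) n)
      · refine h _ (ft_aff True) ?_
        rw [Pool.Agent.Z125.UN.topDim_aff]
        exact Pool.Agent.Z125.UN.dim_quot _ (by rwa [Ne, Ideal.span_singleton_eq_bot])
    · intro h
      refine (dim_cover_eq (cls_perfect hT n) p hp (clo_perfect hT n).torus d).2 ?_
      intro F _ _ _
      exact hcov d n F ((key _ _ n).1 (h _))
  -- a fixed twist and trilinear forms
  have tri1 : ∀ n : ℤ, BP T n ↔ ∀ (a b c : ℕ) (t : Fin a → Fin b → Fin c → k),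
      Perfect T (asS p (tri t)) (n + c) := by
    intro n
    have h2 := fun m : ℕ => bil_as p hF h1 n m
    rw [hBP n]
    constructor
    · intro h a b c t
      exact (h2 c).1 (fun a b c t _ => h _ (ft_aff True)) a b c t le_rfl
    · intro h X hX
      exact clo_universal (S := Set.univ) (clo_perfect hT n).toClo trivial trivial
        (fun a b c t _ => (h2 c).2 (fun a b c t _ => h a b c t) a b c t le_rfl)
        presents_univ X hX
  have three : ∀ n : ℤ, [BP T n,
      (∀ (m : ℕ) (f : MvPolynomial (Fin m) k),
        Perfect T (asS p (MvPolynomial.X 0 * MvPolynomial.rename Fin.succ f)) (n + 1)),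
      (∀ (a b c : ℕ) (t : Fin a → Fin b → Fin c → k),
        Perfect T (asS p (tri t)) (n + c))].TFAE := by
    intro n
    tfae_have 1 → 2 := by
      intro h m f
      rw [key]
      exact (hBP n).1 h _ (ft_aff True)
    tfae_have 2 → 1 := by
      intro h
      rw [hBP n, all_cover (cls_perfect hT n) p hp]
      intro m F _ _ _
      exact hcov m n F ((key _ _ n).1 (h _ _))
    tfae_have 1 ↔ 3 := tri1 n
    tfae_finish
  have four : [(∀ n, BP T n),
      (∀ (m : ℕ) (g : MvPolynomial (Fin m) k) (n : ℤ), Perfect T (asS p g) n),
      (∀ (a b c : ℕ) (t : Fin a → Fin b → Fin c → k) (n : ℤ),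
        Perfect T (asS p (tri t)) n)].TFAE := by
    tfae_have 1 → 2 := fun h m g n => (hBP n).1 (h n) _ (ft_aff True)
    tfae_have 2 → 3 := by
      intro h a b c t n
      have e : MvPolynomial (Fin a ⊕ (Fin b ⊕ Fin c)) k ≃ₐ[k]
          MvPolynomial (Fin (a + (b + c))) k := MvPolynomial.renameEquiv k
        ((Equiv.sumCongr (Equiv.refl _) finSumFinEquiv).trans finSumFinEquiv)
      exact (as_e p (cls_perfect hT n) e rfl).2 (h _ _ n)
    tfae_have 3 → 1 := fun h n => (tri1 n).2 fun a b c t => h a b c t _
    tfae_finish
  have five : ∀ d : ℕ, (∀ n, UpTo T d n) ↔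
      ∀ (a b c : ℕ) (t : Fin a → Fin b → Fin c → k), c ≤ d + 2 →
        ∀ n, Perfect T (asS p (tri t)) n := by
    intro d
    rw [← bil_as p hFA (fun _ => h1) 0 (d + 2), ← dim_bil hB d]
    exact ⟨fun h X hX hd n => h n X hX hd, fun h n X hX hd => h X hX hd n⟩
  have c1 : ∀ n, UpTo T 1 n := fun n X hX hd => curves X hX (by exact_mod_cast hd) n
  refine ⟨key, two, three, four, five, ⟨fun f n => ?_, (five 1).1 c1⟩, fun hpr n => ?_⟩
  · have h2 : ∀ f : MvPolynomial (Fin (1 + 1)) k, Perfect T
        (asS p (MvPolynomial.X 0 * MvPolynomial.rename Fin.succ f)) (n - 1 + 1) :=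
      (two (n - 1) 1).1 (c1 (n - 1))
    rw [sub_add_cancel] at h2
    exact h2 f
  · have hS := short_presents (int_surj hpr)
    rw [hBP n, three_iff hS (clo_perfect hT n).toClo]
    exact few_as p hF h1 n

end Pool.Agent.Results.MP_a9d3bd_ag.ArtinSchreierCovers
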