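import Pool.Agent.Helper62.EC.Line

/-!
# MP_a9d3bd_ag: the conjecture BP(n) and finite étale covers of affine spaces

`T : Motivic k` are data of motivic homology `H X i n = H_i^c(X, ℚ(n))` and of motivic cohomology
`C X i n = H^i_c(X, ℚ(n))` with compact supports of the schemes `X` over the finite field `k`, with the
pairing `H X i n × C X i n → ℚ`. `Perfect T X n`: the pairing is perfect for all `i`. `IsMotivic T`
lists the known properties which are used. `FT True X`: `X` is separated and of finite type over `k`.

`covS F` is the cover `F(x_1, …, x_m, t) = 0` of the affine space of dimension `m`, and `IsCover F` says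
that `F` is irreducible, monic in `t`, and has a constant discriminant: the cover is connected, finite and
étale.
-/

set_option autoImplicit false

open CategoryTheory AlgebraicGeometry Pool.Agent.Y116.UV Pool.Agent.N882.UE Pool.Agent.Helper62.EC

namespace Pool.Agent.Results.MP_a9d3bd_ag.EtaleCoversOfAffineSpace

/-- `BP(n)` over `k`: the pairings `H^i(X, ℚ(n)) × H^{2d-i}(X, ℚ(d-n)) → ℚ` are perfect for all smooth
proper schemes `X` of pure dimension `d` over `k` and all `i` (for these schemes `H^{2d-i}(X, ℚ(d-n))` is
`H_i^c(X, ℚ(n))`, and `H^i(X, ℚ(n))` is `H^i_c(X, ℚ(n))`). -/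
def BP {k : Type} [Field k] (T : Motivic k) (n : ℤ) : Prop :=
  ∀ (d : ℕ) (X : Sch k), SmoothOfRelativeDimension d X.hom → IsProper X.hom → Perfect T X n

/-- The pairings with twist `n` are perfect for all separated schemes of finite type of dimension at
most `d`. -/
def UpTo {k : Type} [Field k] (T : Motivic k) (d : ℕ) (n : ℤ) : Prop :=
  ∀ X : Sch k, FT True X → topologicalKrullDim X.left ≤ d → Perfect T X n

/-- **Theorem.** Let `T` be motivic homology and cohomology with compact supports of the schemes over the
finite field `k`. It is known that the pairings are perfect for all separated schemes of finite type if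
they are perfect for the smooth projective ones (`reduction`).
(1) For every twist `n` and every `d` the pairings are perfect for all separated schemes of finite type
of dimension at most `d` if and only if they are perfect for the connected finite étale covers
`F(x_1, …, x_d, t) = 0` of the affine space of dimension `d`.
(2) For every `n`, `BP(n)` over `k` is true if and only if the pairings with twist `n` are perfect for the
connected finite étale covers `F(x_1, …, x_m, t) = 0` of the affine spaces. -/
theorem result {k : Type} [Field k] [Finite k] (T : Motivic k) (hT : IsMotivic T)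
    (reduction : ∀ n, BP T n → ∀ X : Sch k, FT True X → Perfect T X n) :
    (∀ (n : ℤ) (d : ℕ), UpTo T d n ↔
      ∀ F : Polynomial (MvPolynomial (Fin d) k), IsCover F → Perfect T (covS F) n) ∧
    (∀ n : ℤ, BP T n ↔
      ∀ (m : ℕ) (F : Polynomial (MvPolynomial (Fin m) k)), IsCover F →
        Perfect T (covS F) n) := by
  obtain ⟨p, hp⟩ := CharP.exists k
  have hp0 : p ≠ 0 := CharP.char_ne_zero_of_finite k p
  have hBP : ∀ n, (BP T n ↔ ∀ X : Sch k, FT True X → Perfect T X n) := by
    intro n
    refine ⟨reduction n, fun h d X _ hX => h X ⟨?_, ?_, fun _ => ?_⟩⟩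
    · infer_instance
    · infer_instance
    · infer_instance
  constructor
  · intro n d
    exact (dim_cover_eq (cls_perfect hT n) p hp0 (clo_perfect hT n).torus d).trans
      ⟨fun h F hF => h F hF.1 hF.2 hF.3, fun h F a b c => h F ⟨a, b, c⟩⟩
  · intro n
    rw [hBP n, all_cover (cls_perfect hT n) p hp0]
    exact ⟨fun h m F hF => h m F hF.1 hF.2 hF.3, fun h m F a b c => h m F ⟨a, b, c⟩⟩

end Pool.Agent.Results.MP_a9d3bd_ag.EtaleCoversOfAffineSpace
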