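import Pool.Agent.Helper24.KG.Pair

/-!
# The motivic pairings over finite fields and Euler characteristics of hypersurface complements

Let `k` be a finite field with `q` elements, and let `C` be the category of Chow motives over `k` with
rational coefficients. For `m ∈ ℤ` let `coh m N = H^m(N, ℚ(0))`, a covariant functor of the motive `N`, and
`dco m N = H^{-m}(N^∨, ℚ(0))`, a contravariant functor of `N`, with the pairing `coh m N × dco m N → ℚ`,
given by a natural map `pair m : coh m → (dco m)^*`. If `X` is a smooth projective scheme of pure dimension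
`d` and `N = h(X)(n)`, then this is the pairing
`H^i(X, ℚ(n)) × H^{2d-i}(X, ℚ(d-n)) → ℚ` of question Q1 with `i = 2n + m`. `Conj m n X` says that it is
perfect. The defect of the pairing is the additive functor

`P_m(N) = ker (coh m N → (dco m N)^*) ⊕ coker (coh m N → (dco m N)^*) ⊕`
`         ker ((coh m N)^** → (dco m N)^*) ⊕ coker ((coh m N)^** → (dco m N)^*)`;

the pairing is perfect if and only if `P_m(N) = 0` (`perfect_iff`).

For a separated scheme `X` of finite type over `k` let `W(X)` be its weight complex with compact supports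
(Gillet, Soulé), a bounded complex of Chow motives; its terms are direct summands of motives of smooth
projective schemes of dimension at most `dim X` (`IsWeightsF`). If the complex `P_m(W(X)(n))` has finite
dimensional cohomology (`HasChi`), let `χ_{m,n}(X)` be its Euler characteristic (`euler`). We look at the open
subsets `D(F) : F ≠ 0` of the affine spaces, `F ∈ k[x_1, …, x_r]`.

**Theorem.** Let `m ∈ ℤ`.

(1) Let `n` and `d ≥ 0` be given. The pairings `⟨·,·⟩_{2n+m,n}` are perfect for all smooth projective `X` over
`k` of dimension at most `d` if and only if the numbers `χ_{m,n}(D(F))` are defined and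
`o(deg F / log (deg F + 3))`, for `F ∈ k[x_1, …, x_{d+1}]`.

(2) One-sided bounds `χ_{m,n}(D(F)) ≤ o(deg F / log (deg F + 3))` (or the same for `-χ_{m,n}`), for the
polynomials in `d + 1` and in `d + 2` variables, are enough, too.

(3) Let `m ≤ 0`, that is `i ≤ 2n`, and let `J` be given. The pairings `⟨·,·⟩_{2n+m,n}` are perfect for all
smooth projective `X` over `k` and all `n ≤ J` if and only if for all `n ≤ J` the numbers `χ_{m,n}(D(F))` are
defined and satisfy `χ_{m,n}(D(F)) ≤ o(q^r)` for the polynomials `F ∈ k[x_1, …, x_r]` with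
`deg F ≤ q r + b`, for all `b`. The same with `-χ_{m,n}`.

For `m = 0` the statement is the conjecture that rational and numerical equivalence coincide up to torsion, for
`m < 0` it is the vanishing of `H^{2n+m}(X, ℚ(n))` (Parshin).
-/

set_option autoImplicit false
set_option linter.checkUnivs false

open CategoryTheory Limits AlgebraicGeometry Pool.Agent.Y116.UV Pool.Agent.Q282.UM
  Pool.Agent.Q282.UK Pool.Agent.Helper24.KD Pool.Agent.Helper24.KF Pool.Agent.Helper24.KG

universe v u

namespace Pool.Agent.Results.MP_a9d3bd_ag.EulerCharacteristics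

/-- The category `C` of Chow motives over `k`, with

* the motives `h(X)`, the Tate twists `N(j)` and the weight complexes `W(X)` (`Weights`);
* the functors `coh m`, `dco m` and the pairings `pair m`. -/
structure Mot (k : Type) [Field k] where
  C : Type u
  [cat : Category.{v} C]
  [pre : Preadditive C]
  [zero : HasZeroObject C]
  [bin : HasBinaryBiproducts C]
  [fin : HasFiniteBiproducts C]
  D : Weights k C
  coh : ℤ → C ⥤ ModuleCat.{0} ℚ
  dco : ℤ → Cᵒᵖ ⥤ ModuleCat.{0} ℚ
  [coh_additive : ∀ m, (coh m).Additive]
  [dco_additive : ∀ m, (dco m).Additive]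
  pair : ∀ m, coh m ⟶ dualF (dco m)

attribute [instance] Mot.cat Mot.pre Mot.zero Mot.bin Mot.fin Mot.coh_additive Mot.dco_additive

variable {k : Type} [Field k] (M : Mot.{v, u} k)

/-- The motive `h(X)(n)`. -/
noncomputable def Mot.motive (n : ℤ) (X : Sch k) : M.C := (M.D.tw n).obj (M.D.h X)

/-- The pairing `⟨·,·⟩_{2n+m,n}` of the smooth projective scheme `X` is perfect. -/
def Conj (m n : ℤ) (X : Sch k) : Prop := Perfect (M.pair m) (M.motive n X)

/-- The defect of the pairing. -/
noncomputable abbrev Mot.P (m : ℤ) : M.C ⥤ ModuleCat.{0} ℚ := defect (M.pair m)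

/-- The known properties of the Chow motives over `k`.

* `weight`: the weight complexes;
* `points`: Q1 is true in dimension zero (Quillen);
* `negative`: for `n < 0` and `m ≤ 0` the groups `H^{2n+m}(X, ℚ(n))` and
  `H^{2d-2n-m}(X, ℚ(d-n)) = CH^{d-n}(X, m)_ℚ` are zero. -/
structure KnownFacts : Prop where
  weight : IsWeightsF M.D
  points : ∀ X : Sch k, IsSmoothProjective X → topologicalKrullDim X.left ≤ (0 : ℕ) →
    ∀ m n : ℤ, Conj M m n X
  negative : ∀ X : Sch k, IsSmoothProjective X → ∀ m n : ℤ, m ≤ 0 → n < 0 →
    Subsingleton ((M.coh m).obj (M.motive n X)) ∧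
      Subsingleton ((M.dco m).obj (Opposite.op (M.motive n X)))

variable {M}

lemma conj_iff (m n : ℤ) (X : Sch k) : Conj M m n X ↔ Zero (M.P m) M.D n X :=
  perfect_iff (M.pair m) (M.motive n X)

lemma knownP (hM : KnownFacts M) (m : ℤ) : KnownP (M.P m) M.D where
  weight := hM.weight
  points n X hX hd := (conj_iff m n X).mp (hM.points X hX (by exact_mod_cast hd) m n)

lemma known (hM : KnownFacts M) {m : ℤ} (hm : m ≤ 0) : Known (M.P m) M.D where
  weight := hM.weight
  points n X hX hd := (conj_iff m n X).mp (hM.points X hX (by exact_mod_cast hd) m n)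
  negative n hn X hX := (conj_iff m n X).mp (by
    obtain ⟨h1, h2⟩ := hM.negative X hX m n hm hn
    have h3 : Subsingleton (Module.Dual ℚ ((M.dco m).obj (Opposite.op (M.motive n X)))) :=
      inferInstance
    have h4 : Subsingleton (Module.Dual ℚ ((M.coh m).obj (M.motive n X))) := inferInstance
    exact ⟨⟨fun a b _ => h1.elim a b, fun a => ⟨0, h3.elim _ _⟩⟩,
      ⟨fun a b _ => h2.elim a b, fun a => ⟨0, h4.elim _ _⟩⟩⟩)

/-- **The motivic pairings over finite fields and Euler characteristics of hypersurface
complements.** See the explanations above. -/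
theorem result {k : Type} [Field k] [Finite k] (M : Mot.{v, u} k) (hM : KnownFacts M) (m : ℤ) :
    -- (1) dimension at most `d`: bounds `o(deg / log deg)`
    (∀ (n : ℤ) (d : ℕ), (∀ X : Sch k, IsSmoothProjective X → topologicalKrullDim X.left ≤ d →
        Conj M m n X) ↔ Bound (M.P m) M.D abs n (d + 1)) ∧
    -- (2) one-sided bounds
    (∀ (n : ℤ) (d : ℕ) (R : ℤ → ℤ), (R = id ∨ R = Neg.neg) → Bound (M.P m) M.D R n (d + 1) →
      Bound (M.P m) M.D R n (d + 2) → ∀ X : Sch k, IsSmoothProjective X →
        topologicalKrullDim X.left ≤ d → Conj M m n X) ∧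
    -- (3) all dimensions: growth slower than `q ^ r`
    (m ≤ 0 → ∀ (J : ℤ) (R : ℤ → ℤ), (R = id ∨ R = Neg.neg) →
      ((∀ n ≤ J, ∀ X : Sch k, IsSmoothProjective X → Conj M m n X) ↔
        ∀ n ≤ J, Growth (M.P m) M.D R n)) := by
  have hK := knownP hM m
  refine ⟨fun n d => ⟨fun h => ?_, fun h X hX hd => ?_⟩, fun n d R hR h1 h2 X hX hd => ?_,
    fun hm J R hR => ⟨fun h n hn => ?_, fun h n hn X hX => ?_⟩⟩
  · exact to_boundP hK (fun X hX hd => (conj_iff m n X).mp (h X hX hd)) abs_zero
  · exact (conj_iff m n X).mpr (from_absP hK h X hX hd)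
  · exact (conj_iff m n X).mpr (from_oneP hK hR h1 h2 X hX hd)
  · refine to_growth (known hM hm) (fun X hX => (conj_iff m n X).mp (h n hn X hX)) ?_
    rcases hR with rfl | rfl
    · rfl
    · exact neg_zero
  · exact (conj_iff m n X).mpr (from_growth (known hM hm) hR h n hn X hX)

end Pool.Agent.Results.MP_a9d3bd_ag.EulerCharacteristics
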