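import Pool.Agent.Helper24.SE.FinP

/-!
# The motivic pairings over finite fields and exceptional sets with a power saving

Let `k` be a finite field, and let `C` be the category of Chow motives over `k` with
rational coefficients. For `m ∈ ℤ` let `coh m N = H^m(N, ℚ(0))`, a covariant functor of the motive `N`, and
`dco m N = H^{-m}(N^∨, ℚ(0))`, a contravariant functor of `N`, with the pairing `coh m N × dco m N → ℚ`,
given by a natural map `pair m : coh m → (dco m)^*`. If `X` is a smooth projective scheme of pure dimension
`d` and `N = h(X)(n)`, then this is the pairing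
`H^i(X, ℚ(n)) × H^{2d-i}(X, ℚ(d-n)) → ℚ` of question Q1 with `i = 2n + m`. `Conj m n X` says that it is
perfect. The defect of the pairing is the additive functor

`P_m(N) = ker (coh m N → (dco m N)^*) ⊕ coker (coh m N → (dco m N)^*) ⊕`
`         ker ((coh m N)^** → (dco m N)^*) ⊕ coker ((coh m N)^** → (dco m N)^*)`;

the pairing is perfect if and only if `P_m(N) = 0` (`perfect_iff`).

For a separated scheme `X` of finite type over `k` let `W(X)` be its weight complex with compact supports
(Gillet, Soulé), a bounded complex of Chow motives; its terms are direct summands of motives of smooth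
projective schemes of dimension at most `dim X` (`IsWeightsF`). A polynomial `F ∈ k[x_1, …, x_r]` is an
exception (for `m` and `n`) if it is false that the complex `P_m(W(D(F))(n))` has cohomology of finite total
dimension and Euler characteristic zero, where `D(F)` is the complement of the hypersurface `F = 0` in the
affine space. Let `Box(D)` be the finite set of the `F` of degree at most `D` in each variable and `Exc(D)`
the set of the exceptions in `Box(D)`.

**Theorem.** Let `m`, `n ∈ ℤ`.

(1) The pairings `⟨·,·⟩_{2n+m,n}` are perfect for all smooth projective `X` over `k` of dimension at most `d`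
if and only if the exceptional sets in `d + 1` variables have a power saving: for some `ε > 0` there are
infinitely many `D` with `#Exc(D) ≤ #Box(D) ^ (1 - ε)`.

(2) They are perfect for all smooth projective `X` over `k` if and only if the exceptional sets in `r`
variables have a power saving, for infinitely many `r`.

(3) A zero–one law: if there is one exception in `r ≥ 1` variables, then for every `ε > 0` and all large `D`
there are more than `#Box(D) ^ (1 - ε)` exceptions in `Box(D)`.

(4) If the hypersurfaces `F = 0` and `H = 0` are disjoint and `F` is an exception, then `H` or `F H` is an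
exception.

For `m = 0` the statement is the conjecture that rational and numerical equivalence coincide up to torsion, for
`m < 0` it is the vanishing of `H^{2n+m}(X, ℚ(n))` (Parshin).
-/

set_option autoImplicit false
set_option linter.checkUnivs false

open CategoryTheory Limits AlgebraicGeometry Filter Pool.Agent.Y116.UV Pool.Agent.Q282.UM
  Pool.Agent.Q282.UK Pool.Agent.Helper24.KD Pool.Agent.Helper24.KF Pool.Agent.Helper24.KG

open Pool.Agent.Helper24.SE (BoxF ExcF SavingF ExcpF functorP_dim functorP_all functorP_full
  functorP_disj)

universe v u

namespace Pool.Agent.Results.MP_a9d3bd_ag.PowerSaving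

/-- The category `C` of Chow motives over `k`, with

* the motives `h(X)`, the Tate twists `N(j)` and the weight complexes `W(X)` (`Weights`);
* the functors `coh m`, `dco m` and the pairings `pair m`. -/
structure Mot (k : Type) [Field k] where
  C : Type u
  [cat : Category.{v} C]
  [pre : Preadditive C]
  [zero : HasZeroObject C]
  [bin : HasBinaryBiproducts C]
  [fin : HasFiniteBiproducts C]
  D : Weights k C
  coh : ℤ → C ⥤ ModuleCat.{0} ℚ
  dco : ℤ → Cᵒᵖ ⥤ ModuleCat.{0} ℚ
  [coh_additive : ∀ m, (coh m).Additive]
  [dco_additive : ∀ m, (dco m).Additive]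
  pair : ∀ m, coh m ⟶ dualF (dco m)

attribute [instance] Mot.cat Mot.pre Mot.zero Mot.bin Mot.fin Mot.coh_additive Mot.dco_additive

variable {k : Type} [Field k] (M : Mot.{v, u} k)

/-- The motive `h(X)(n)`. -/
noncomputable def Mot.motive (n : ℤ) (X : Sch k) : M.C := (M.D.tw n).obj (M.D.h X)

/-- The pairing `⟨·,·⟩_{2n+m,n}` of the smooth projective scheme `X` is perfect. -/
def Conj (m n : ℤ) (X : Sch k) : Prop := Perfect (M.pair m) (M.motive n X)

/-- The defect of the pairing. -/
noncomputable abbrev Mot.P (m : ℤ) : M.C ⥤ ModuleCat.{0} ℚ := defect (M.pair m)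

/-- The known properties of the Chow motives over `k`.

* `weight`: the weight complexes;
* `points`: Q1 is true in dimension zero (Quillen). -/
structure KnownFacts : Prop where
  weight : IsWeightsF M.D
  points : ∀ X : Sch k, IsSmoothProjective X → topologicalKrullDim X.left ≤ (0 : ℕ) →
    ∀ m n : ℤ, Conj M m n X

variable {M}

lemma conj_iff (m n : ℤ) (X : Sch k) : Conj M m n X ↔ Zero (M.P m) M.D n X :=
  perfect_iff (M.pair m) (M.motive n X)

lemma knownP (hM : KnownFacts M) (m : ℤ) : KnownP (M.P m) M.D where
  weight := hM.weight
  points n X hX hd := (conj_iff m n X).mp (hM.points X hX (by exact_mod_cast hd) m n)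

/-- `F` is an exception: it is false that the Euler characteristic of `P_m(W(D(F))(n))` is defined and
zero. -/
def Exception (M : Mot.{v, u} k) (m n : ℤ) {r : ℕ} (F : MvPolynomial (Fin r) k) : Prop :=
  ¬ (HasChi (M.P m) M.D n (princ F) ∧ euler (M.P m) M.D n (princ F) = 0)

/-- **The motivic pairings over finite fields and exceptional sets with a power saving.** See the
explanations above. -/
theorem result {k : Type} [Field k] [Finite k] (M : Mot.{v, u} k) (hM : KnownFacts M) (m n : ℤ) :
    -- (1) dimension at most `d`
    (∀ d : ℕ, (∀ X : Sch k, IsSmoothProjective X → topologicalKrullDim X.left ≤ d → Conj M m n X) ↔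
      SavingF (k := k) (r := d + 1) (Exception M m n)) ∧
    -- (2) all dimensions
    ((∀ X : Sch k, IsSmoothProjective X → Conj M m n X) ↔
      ∃ᶠ r : ℕ in atTop, SavingF (k := k) (r := r) (Exception M m n)) ∧
    -- (3) one exception
    (∀ (r : ℕ) (G : MvPolynomial (Fin (r + 1)) k), Exception M m n G → ∀ ε : ℝ, 0 < ε →
      ∀ᶠ D : ℕ in atTop, ((BoxF k (r + 1) D).ncard : ℝ) ^ (1 - ε) <
        ((ExcF (k := k) (r := r + 1) (Exception M m n) D).ncard : ℝ)) ∧
    -- (4) disjoint hypersurfaces
    ∀ (r : ℕ) (F H : MvPolynomial (Fin r) k), Ideal.span {H} ⊔ Ideal.span {F} = ⊤ →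
      Exception M m n F → Exception M m n H ∨ Exception M m n (F * H) := by
  have hK := knownP hM m
  refine ⟨fun d => ?_, ?_, fun r G hG ε hε => functorP_full hK n hG hε,
    fun r F H hFH hF => functorP_disj hK n hFH hF⟩
  · refine Iff.trans ?_ (functorP_dim hK n d)
    exact forall₃_congr fun X _ _ => conj_iff m n X
  · refine Iff.trans ?_ (functorP_all hK n)
    exact forall₂_congr fun X _ => conj_iff m n X

end Pool.Agent.Results.MP_a9d3bd_ag.PowerSaving
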